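import Pool.Agent.Helper58.FLP.Public

/-!
# Injectively fibrant presheaves on `Cat_n`
-/

open CategoryTheory MonoidalCategory CartesianMonoidalCategory Opposite

set_option autoImplicit false

namespace FLP

open FL (WE)

namespace PSh

variable {n : ℕ}

/-- Morphisms of presheaves on `Cat_n`. -/
structure Hom (F G : PSh n) : Type 1 where
  app : ∀ C, F.obj C ⟶ G.obj C
  act : ∀ (C C' : CatN n) {m : SimplexCategory} (φ : C.Mx C' m) (x : Sx (F.obj C') m),
    ev (app C) (F.act C C' φ x) = G.act C C' φ (ev (app C') x)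

/-- Injectively fibrant presheaves on `Cat_n`. -/
def InjFib (G : PSh n) : Prop :=
  ∀ (F F' : PSh n) (i : Hom F F'), (∀ C, Mono (i.app C)) → (∀ C, WE (i.app C)) →
    ∀ f : Hom F G, ∃ g : Hom F' G, ∀ C, i.app C ≫ g.app C = f.app C

end PSh

end FLP
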