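import Pool.Agent.Helper58.FLP.BDef
import Pool.Agent.Helper58.FLP.PublicInj
import Pool.Agent.Helper58.FL.Tools

/-!
# Bridge, part 9: injectively fibrant presheaves
-/

open CategoryTheory MonoidalCategory CartesianMonoidalCategory Opposite

set_option autoImplicit false

namespace FLP

open FL (SP MpS HoEq Th Wr WE)

noncomputable section

variable {n : ℕ}

/-- From `Hom` to `FL.PSh.Hom`. -/
def toHomP (H : CatIff n) {F G : PSh n} (f : PSh.Hom F G) :
    FL.PSh.Hom (toPSh H F) (toPSh H G) where
  app K := f.app (ofC H K)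
  act {K K' k} φ x := f.act (ofC H K) (ofC H K') (m := k.unop) (toMx φ) x

theorem injFib_of (H : CatIff n) {G : PSh n} {G' : FL.PSh n} (hG : G'.InjFib)
    (e : ∀ K : FL.CatN n, (toPSh H G).obj K ≅ G'.obj K)
    (he : ∀ {K K' : FL.CatN n} {k : SimplexCategoryᵒᵖ} (φ : MpS K.1 K'.1 k.unop)
      (x : ((toPSh H G).obj K').obj k), (e K).hom.app k ((toPSh H G).act φ x) =
        G'.act φ ((e K').hom.app k x)) : G.InjFib := by
  intro F F' i hi hi' f
  obtain ⟨g, hg⟩ := hG (toHomP H i) (fun C => hi _) (fun C => hi' _)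
    { app := fun K => f.app (ofC H K) ≫ (e K).hom
      act := fun {K K' k} φ x =>
        (congrArg ((e K).hom.app k) (f.act (ofC H K) (ofC H K') (m := k.unop)
          (toMx φ) x)).trans (he φ _) }
  refine ⟨{ app := fun C => g.app (toC H C) ≫ (e (toC H C)).inv, act := ?_ }, fun C => ?_⟩
  · intro C C' m φ x
    have h1 := g.act (C := toC H C) (C' := toC H C') (k := op m) (ofMx φ) x
    have h2 : (toPSh H F').act (C := toC H C) (C' := toC H C') (k := op m) (ofMx φ) x =
        F'.act C C' φ x := by
      show F'.act C C' (toMx (ofMx φ)) x = _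
      rw [toMx_ofMx]
    rw [h2] at h1
    have h3 := he (K := toC H C) (K' := toC H C') (k := op m) (ofMx φ)
      ((e (toC H C')).inv.app (op m) ((g.app (toC H C')).app (op m) x))
    have h4 : ∀ (K : FL.CatN n) (y : (G'.obj K).obj (op m)),
        (e K).hom.app (op m) ((e K).inv.app (op m) y) = y := fun K y =>
      ConcreteCategory.congr_hom (NatTrans.congr_app (e K).inv_hom_id (op m)) y
    have h5 : ∀ (K : FL.CatN n) (y : ((toPSh H G).obj K).obj (op m)),
        (e K).inv.app (op m) ((e K).hom.app (op m) y) = y := fun K y =>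
      ConcreteCategory.congr_hom (NatTrans.congr_app (e K).hom_inv_id (op m)) y
    rw [h4] at h3
    have h6 : (toPSh H G).act (C := toC H C) (C' := toC H C') (k := op m) (ofMx φ)
        ((e (toC H C')).inv.app (op m) ((g.app (toC H C')).app (op m) x)) =
        G.act C C' φ ((e (toC H C')).inv.app (op m) ((g.app (toC H C')).app (op m) x)) := by
      show G.act C C' (toMx (ofMx φ)) _ = _
      rw [toMx_ofMx]
    show (e (toC H C)).inv.app (op m) ((g.app (toC H C)).app (op m) (F'.act C C' φ x)) =
      G.act C C' φ ((e (toC H C')).inv.app (op m) ((g.app (toC H C')).app (op m) x))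
    rw [h1, ← h3, h5, h6]
  · have h := hg (toC H C)
    refine (Category.assoc _ _ _).symm.trans ?_
    exact (congrArg (· ≫ (e (toC H C)).inv) h).trans
      ((Category.assoc _ _ _).trans ((congrArg (f.app C ≫ ·) (e (toC H C)).hom_inv_id).trans
        (Category.comp_id _)))

end

end FLP
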