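import Pool.Agent.Helper58.FLP.B8Of
import Pool.Agent.Helper58.FLP.B9Of
import Pool.Agent.Helper84.FLP.B3
import Pool.Agent.Helper87.FLP.Surj
import Pool.Agent.Helper55.FLP.Coc
import Pool.Agent.Helper28.FLP.Cmp
import Pool.Agent.Helper83.FLP.RpCompare
import Pool.Agent.Helper45.FLP.YD

/-!
# Bridge: the conjecture in its public form
-/

open CategoryTheory MonoidalCategory CartesianMonoidalCategory Opposite

set_option autoImplicit false

namespace FLP

open FL (SP MpS HoEq InjFib InjFibration Th Wr)

variable {n : ℕ}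

theorem catIff (n : ℕ) : CatIff n := Helper84FLP.isCat_iff n

theorem surjIff (n : ℕ) : SurjIff n := fun hk _ _ hX hY _ hq =>
  Pool.Agent.Helper87.FLPSurj.surj_iff hk hX hY hq

theorem hyp (H : CatIff n) : Hyp n H where
  kan_iff := fun F => Pool.Agent.Helper28.FLCmp.kan_iff H F
  equiv_iff := fun F G G' e he => Pool.Agent.Helper28.FLCmp.equiv_iff H F G G' e he
  exists_wtIso := fun _ => Pool.Agent.Helper55.FLP.exists_wtIso
  exists_corr := fun e p K => Pool.Agent.Helper55.FLP.exists_corr e p K
  compare_iff := fun e F _ _ _ _ h => Pool.Agent.Helper28.FLCmp.compare_iff H e F h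
  rp_compare_iff := fun e _ _ _ _ h i Z => Helper83FLP.rp_compare_iff e h i Z
  exists_ydIso := fun D => Pool.Agent.Helper45.FLPYD.exists_ydIso H D
  yDmap_iff := fun D D' => Pool.Agent.Helper45.FLPYD.yDmap_iff H D D'

theorem flagged_iff (D : SP (Gn n)) : Flagged D ↔ FL.Flagged D :=
  flagged_iff_of (catIff n) (surjIff n) D

theorem conjecture_of (h : FL.Conjecture n) : FLP.Conjecture n :=
  conjecture_of' (catIff n) (surjIff n) (hyp (catIff n)) h

theorem yd_injFib_of {D : SP (Gn n)} (h : (FL.YD D).InjFib) : (YD D).InjFib := by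
  obtain ⟨e, he⟩ := (hyp (catIff n)).exists_ydIso D
  exact injFib_of (catIff n) h e he

end FLP
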