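import Pool.Agent.Helper58.FLP.Public
import Pool.Agent.Helper88.FL.Htpy

/-!
# Bridge, part 1: the two forms of mapping spaces
-/

open CategoryTheory MonoidalCategory CartesianMonoidalCategory Opposite

set_option autoImplicit false

namespace FLP

open FL (SP MpS HoEq)

noncomputable section

variable {A B : Type} [SmallCategory A] [SmallCategory B]

/-- From families of functions to maps `X × Δ[m] ⟶ Y`. -/
def toMx {X Y : SP A} {m : SimplexCategory} (φ : MpS X Y m) : Mx X Y m where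
  app a :=
    { app := fun k => ↾ fun (z : (X.obj a).obj k × (SSet.stdSimplex.obj m : SSet.{0}).obj k) =>
        φ.app a k (SSet.stdSimplex.objEquiv z.2) z.1
      naturality := fun k l α => by
        refine ConcreteCategory.hom_ext _ _ fun z => ?_
        exact φ.nat_right a α (SSet.stdSimplex.objEquiv z.2) z.1 }
  naturality a b f := by
    refine NatTrans.ext (funext fun k => ConcreteCategory.hom_ext _ _ fun z => ?_)
    exact φ.nat_left f k (SSet.stdSimplex.objEquiv z.2) z.1

/-- From maps `X × Δ[m] ⟶ Y` to families of functions. -/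
def ofMx {X Y : SP A} {m : SimplexCategory} (φ : Mx X Y m) : MpS X Y m where
  app a k s x := (φ.app a).app k (x, SSet.stdSimplex.objEquiv.symm s)
  nat_left {a b} f k s x := by
    exact FL.hom_nat φ f (k := k) (x, SSet.stdSimplex.objEquiv.symm s)
  nat_right a k l g s x := by
    refine Eq.trans ?_ (FL.hom_natk φ g (a := a) (x, SSet.stdSimplex.objEquiv.symm s))
    rfl

lemma toMx_ofMx {X Y : SP A} {m : SimplexCategory} (φ : Mx X Y m) : toMx (ofMx φ) = φ := by
  refine NatTrans.ext (funext fun a => NatTrans.ext (funext fun k =>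
    ConcreteCategory.hom_ext _ _ fun z => ?_))
  show (φ.app a).app k (z.1, SSet.stdSimplex.objEquiv.symm (SSet.stdSimplex.objEquiv z.2)) = _
  rw [Equiv.symm_apply_apply]
  rfl

lemma ofMx_toMx {X Y : SP A} {m : SimplexCategory} (φ : MpS X Y m) : ofMx (toMx φ) = φ := by
  refine MpS.ext ?_
  funext a k s x
  show φ.app a k (SSet.stdSimplex.objEquiv.{0} (SSet.stdSimplex.objEquiv.{0}.symm s)) x = _
  rw [Equiv.apply_symm_apply]

/-- The equivalence between the two forms of simplices of mapping spaces. -/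
def mxEquiv (X Y : SP A) (m : SimplexCategory) : MpS X Y m ≃ Mx X Y m :=
  ⟨toMx, ofMx, ofMx_toMx, toMx_ofMx⟩

lemma toMx_res {X Y : SP A} {m l : SimplexCategory} (α : l ⟶ m) (φ : MpS X Y m) :
    toMx (φ.res α) = (toMx φ).res α := rfl

lemma toMx_comp {X Y Z : SP A} {m : SimplexCategory} (φ : MpS X Y m) (ψ : MpS Y Z m) :
    toMx (φ.comp ψ) = (toMx φ).comp (toMx ψ) := rfl

lemma toMx_of {X Y : SP A} (f : X ⟶ Y) (m : SimplexCategory) :
    toMx (MpS.ofHom m f) = Mx.of f m := rfl

lemma ofMx_res {X Y : SP A} {m l : SimplexCategory} (α : l ⟶ m) (φ : Mx X Y m) :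
    ofMx (φ.res α) = (ofMx φ).res α := by
  apply (mxEquiv X Y l).injective
  show toMx (ofMx (φ.res α)) = toMx ((ofMx φ).res α)
  rw [toMx_res, toMx_ofMx, toMx_ofMx]

lemma ofMx_comp {X Y Z : SP A} {m : SimplexCategory} (φ : Mx X Y m) (ψ : Mx Y Z m) :
    ofMx (φ.comp ψ) = (ofMx φ).comp (ofMx ψ) := by
  apply (mxEquiv X Z m).injective
  show toMx (ofMx (φ.comp ψ)) = toMx ((ofMx φ).comp (ofMx ψ))
  rw [toMx_comp, toMx_ofMx, toMx_ofMx, toMx_ofMx]

lemma ofMx_of {X Y : SP A} (f : X ⟶ Y) (m : SimplexCategory) :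
    ofMx (Mx.of f m) = MpS.ofHom m f := rfl

/-- The isomorphism between the two forms of mapping spaces. -/
def mpIso (X Y : SP A) : FL.Mp X Y ≅ Mp X Y where
  hom := { app := fun m => ↾ fun (φ : MpS X Y m.unop) => toMx φ
           naturality := fun _ _ _ => rfl }
  inv := { app := fun m => ↾ fun (φ : Mx X Y m.unop) => ofMx φ
           naturality := fun m l α => ConcreteCategory.hom_ext _ _ fun (φ : Mx X Y m.unop) =>
             ofMx_res α.unop φ }
  hom_inv_id := NatTrans.ext (funext fun m => ConcreteCategory.hom_ext _ _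
    fun (φ : MpS X Y m.unop) => ofMx_toMx φ)
  inv_hom_id := NatTrans.ext (funext fun m => ConcreteCategory.hom_ext _ _
    fun (φ : Mx X Y m.unop) => toMx_ofMx φ)

lemma mpIso_pre {X X' : SP A} (f : X ⟶ X') (Y : SP A) :
    FL.Mp.pre f Y ≫ (mpIso X Y).hom = (mpIso X' Y).hom ≫ Mp.pre f Y := rfl

lemma hoEq_pre_iff {X X' : SP A} (f : X ⟶ X') (Y : SP A) :
    HoEq (Mp.pre f Y) ↔ HoEq (FL.Mp.pre f Y) := by
  constructor
  · intro h
    refine Pool.Agent.Helper88.FL.hoEq_of_arrow_iso (mpIso X' Y).symm (mpIso X Y).symm ?_ h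
    show Mp.pre f Y ≫ (mpIso X Y).inv = (mpIso X' Y).inv ≫ FL.Mp.pre f Y
    rw [Iso.comp_inv_eq, Category.assoc, mpIso_pre, Iso.inv_hom_id_assoc]
  · intro h
    exact Pool.Agent.Helper88.FL.hoEq_of_arrow_iso (mpIso X' Y) (mpIso X Y) (mpIso_pre f Y) h

end

end FLP
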