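import Pool.Agent.Helper58.FLP.BDef
import Pool.Agent.Helper58.FL.Statement
import Pool.Agent.Helper91.FL.GauntFinal

/-!
# Bridge, parts 5 and 8: flagged categories, gaunt descent and the conjecture
-/

open CategoryTheory MonoidalCategory CartesianMonoidalCategory Opposite

set_option autoImplicit false

namespace FLP

open FL (SP MpS HoEq InjFib InjFibration Th Wr)

noncomputable section

variable {n : ℕ}

/-- The statement of part 4 of the bridge. -/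
abbrev SurjIff (n : ℕ) : Prop := ∀ {k : ℕ} (_ : k ≤ n) {X Y : SP (Th n)} (_ : InjFib X)
    (_ : InjFib Y) {q : X ⟶ Y} (_ : InjFibration q),
    FLP.Surj n k q ↔ ∀ (P Q : SP (Th n)) (b : P ⟶ Q), FL.IsBd n k b →
      ∀ (x : P ⟶ X) (y : Q ⟶ Y), x ≫ q = b ≫ y → ∃ z : Q ⟶ X, b ≫ z = x ∧ z ≫ q = y

theorem flagged_iff_of (H : CatIff n) (S : SurjIff n) (D : SP (Gn n)) :
    Flagged D ↔ FL.Flagged D := by
  have aux : InjFib D → ((∀ (i j : Fin (n + 1)) (h : i ≤ j) (k : ℕ), k ≤ i.1 →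
      Surj n k (levelMap D h)) ↔ (∀ (i j : Fin (n + 1)) (h : i ≤ j) (k : ℕ), k ≤ i.1 →
    ∀ (X Y : SP (Th n)) (b : X ⟶ Y), FL.IsBd n k b → ∀ (x : X ⟶ FL.level D i)
      (y : Y ⟶ FL.level D j),
      x ≫ FL.levelMap D h = b ≫ y →
        ∃ z : Y ⟶ FL.level D i, b ≫ z = x ∧ z ≫ FL.levelMap D h = y)) := by
    intro hD
    have hl : ∀ i, InjFib (FL.level D i) := fun i =>
      Pool.Agent.Helper30.FL16.level_injFib_of Pool.Agent.Helper91.FL17a.tool hD i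
    refine forall_congr' fun i => forall_congr' fun j => forall_congr' fun h =>
      forall_congr' fun k => forall_congr' fun hk => ?_
    exact S (hk.trans (Nat.lt_succ_iff.1 i.2)) (hl i) (hl j)
      (Pool.Agent.Helper30.FL16.levelMap_injFibration_of Pool.Agent.Helper91.FL17a.tool hD h)
  constructor
  · intro h
    exact ⟨h.inj, fun i => (H _).1 (h.cat i), h.trunc, (aux h.inj).1 h.surj⟩
  · intro h
    exact ⟨h.inj, fun i => (H _).2 (h.cat i), h.trunc, (aux h.inj).2 h.surj⟩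

/-- The statements of parts 6 and 7 of the bridge. -/
structure Hyp (n : ℕ) (H : CatIff n) : Prop where
  kan_iff : ∀ F : FLP.PSh n, F.Kan ↔ (toPSh H F).Kan
  equiv_iff : ∀ (F G : FLP.PSh n) (G' : FL.PSh n)
    (e : ∀ K : FL.CatN n, (toPSh H G).obj K ≅ G'.obj K)
    (_ : ∀ {K K' : FL.CatN n} {k : SimplexCategoryᵒᵖ} (φ : MpS K.1 K'.1 k.unop)
      (x : ((toPSh H G).obj K').obj k), (e K).hom.app k ((toPSh H G).act φ x) =
        G'.act φ ((e K').hom.app k x)),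
    PSh.Equiv F G ↔ FL.PSh.Equiv (toPSh H F) G'
  exists_wtIso : ∀ (J : Type) [SmallCategory J], Nonempty (PSh.Wt J ≅ FL.W J)
  exists_corr : ∀ {J : Type} [SmallCategory J] (e : PSh.Wt J ≅ FL.W J) (p : PSh.Diag n J)
    (K : FLP.CatN n),
    (∀ Λ : PSh.Cocone p K, ∃ Λ' : FL.Hoco p.p ⟶ K.X, Corr e Λ Λ') ∧
    ∀ Λ' : FL.Hoco p.p ⟶ K.X, ∃ Λ : PSh.Cocone p K, Corr e Λ Λ'
  compare_iff : ∀ {J : Type} [SmallCategory J] (e : PSh.Wt J ≅ FL.W J) (F : FLP.PSh n)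
    {p : PSh.Diag n J} {K : FLP.CatN n}
    {Λ : PSh.Cocone p K} {Λ' : FL.Hoco p.p ⟶ K.X} (_ : Corr e Λ Λ'),
    HoEq (F.compare Λ) ↔ HoEq ((toPSh H F).compare p.p (fun j => (H _).1 (p.cat j))
      ((H _).1 K.cat) Λ')
  rp_compare_iff : ∀ {J : Type} [SmallCategory J] (e : PSh.Wt J ≅ FL.W J) {p : PSh.Diag n J}
    {K : FLP.CatN n}
    {Λ : PSh.Cocone p K} {Λ' : FL.Hoco p.p ⟶ K.X} (_ : Corr e Λ Λ') (i : ℕ) (Z : FLP.CatN n),
    HoEq ((PSh.rp (FL.tr n i) Z.X).compare Λ) ↔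
      HoEq (FL.Mp.pre (Functor.whiskerLeft (FL.tr n i).op Λ') Z.X)
  exists_ydIso : ∀ D : SP (FLP.Gn n),
    ∃ e : ∀ K : FL.CatN n, (toPSh H (FLP.YD D)).obj K ≅ (FL.YD D).obj K,
      ∀ {K K' : FL.CatN n} {k : SimplexCategoryᵒᵖ} (φ : MpS K.1 K'.1 k.unop)
        (x : ((toPSh H (FLP.YD D)).obj K').obj k),
        (e K).hom.app k ((toPSh H (FLP.YD D)).act φ x) =
          (FL.YD D).act φ ((e K').hom.app k x)
  yDmap_iff : ∀ D D' : SP (FLP.Gn n), HoEq (FLP.YDmap D D') ↔ HoEq (FL.YDmap D D')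

theorem gauntDescent_iff_of {H : CatIff n} (T : Hyp n H) (F : FLP.PSh n) :
    F.GauntDescent ↔ (toPSh H F).GauntDescent := by
  constructor
  · intro h J _ p C Λ' hΛ
    obtain ⟨e⟩ := T.exists_wtIso J
    let P : PSh.Diag n J := ⟨p, fun j => (H _).2 (hΛ.cat_obj j)⟩
    let K : CatN n := ⟨C, (H _).2 hΛ.cat_pt⟩
    obtain ⟨Λ, hc⟩ := (T.exists_corr e P K).2 Λ'
    have hg : PSh.IsGaunt Λ := fun i hi Z =>
      (T.rp_compare_iff e hc i Z).2 (hΛ.colim i hi Z.X ((H _).1 Z.cat))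
    exact (T.compare_iff e F hc).1 (h J P K Λ hg)
  · intro h J _ P K Λ hΛ
    obtain ⟨e⟩ := T.exists_wtIso J
    obtain ⟨Λ', hc⟩ := (T.exists_corr e P K).1 Λ
    have hg : FL.IsGaunt P.p Λ' := ⟨fun j => (H _).1 (P.cat j), (H _).1 K.cat, fun i hi Z hZ =>
      (T.rp_compare_iff e hc i ⟨Z, (H _).2 hZ⟩).1 (hΛ i hi ⟨Z, (H _).2 hZ⟩)⟩
    exact (T.compare_iff e F hc).2 (h J P.p K.X Λ' hg)

theorem conjecture_of' (H : CatIff n) (S : SurjIff n) (T : Hyp n H) (h : FL.Conjecture n) :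
    FLP.Conjecture n := by
  refine ⟨fun D D' hD hD' => (T.yDmap_iff D D').2 (h.1 D D' ((flagged_iff_of H S D).1 hD)
    ((flagged_iff_of H S D').1 hD')), fun F hF => ?_⟩
  rw [gauntDescent_iff_of T F, h.2 (toPSh H F) ((T.kan_iff F).1 hF)]
  refine exists_congr fun D => and_congr (flagged_iff_of H S D).symm ?_
  obtain ⟨e, he⟩ := T.exists_ydIso D
  exact (T.equiv_iff F (YD D) (FL.YD D) e he).symm

end

end FLP
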