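import Pool.Agent.Helper58.FLP.B1
import Pool.Agent.Helper58.FL2.Flag2

/-!
# Bridge: definitions
-/

open CategoryTheory MonoidalCategory CartesianMonoidalCategory Opposite

set_option autoImplicit false

namespace FLP

open FL (SP MpS HoEq Th Wr)

noncomputable section

variable {n : ℕ}

/-- The hypothesis that the two notions of `(∞,n)`-category agree. -/
abbrev CatIff (n : ℕ) : Prop := ∀ X : SP (Th n), IsCat n X ↔ FL.IsCat n X

/-- From `FL.CatN` to `CatN`. -/
def ofC (H : CatIff n) (C : FL.CatN n) : CatN n := ⟨C.1, (H C.1).2 C.2⟩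

/-- From `CatN` to `FL.CatN`. -/
def toC (H : CatIff n) (C : CatN n) : FL.CatN n := ⟨C.X, (H C.X).1 C.cat⟩

/-- From `PSh` to `FL.PSh`. -/
def toPSh (H : CatIff n) (F : PSh n) : FL.PSh n where
  obj C := F.obj (ofC H C)
  act {C C' k} φ x := F.act (ofC H C) (ofC H C') (m := k.unop) (toMx φ) x
  act_nat {C C' k l} α φ x := F.act_res (ofC H C) (ofC H C') α.unop (toMx φ) x
  act_id {C k} x := F.act_id (ofC H C) (m := k.unop) x
  act_comp {C C' C'' k} φ ψ x := F.act_comp (ofC H C) (ofC H C') (ofC H C'') (m := k.unop)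
    (toMx φ) (toMx ψ) x

/-- From `FL.PSh` to `PSh`. -/
def ofPSh (H : CatIff n) (G : FL.PSh n) : PSh n where
  obj C := G.obj (toC H C)
  act C C' {m} φ x := G.act (C := toC H C) (C' := toC H C') (k := op m) (ofMx φ) x
  act_res C C' {m l} α φ x := (congrArg (fun t => G.act (C := toC H C) (C' := toC H C')
    (k := op l) t ((G.obj (toC H C')).map α.op x)) (ofMx_res α φ)).trans
      (G.act_nat (C := toC H C) (C' := toC H C') α.op (ofMx φ) x)
  act_id C {m} x := G.act_id (C := toC H C) (k := op m) x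
  act_comp C C' C'' {m} φ ψ x := (congrArg (fun t => G.act (C := toC H C) (C' := toC H C'')
    (k := op m) t x) (ofMx_comp φ ψ)).trans
      (G.act_comp (C := toC H C) (C' := toC H C') (C'' := toC H C'') (k := op m)
        (ofMx φ) (ofMx ψ) x)

variable {J : Type} [SmallCategory J]

/-- The cocones `Λ` (in the sense of `PSh.Cocone`) and `Λ'` (a map `hocolim p ⟶ C`)
correspond. -/
def Corr (e : PSh.Wt J ≅ FL.W J) {p : PSh.Diag n J} {C : CatN n} (Λ : PSh.Cocone p C)
    (Λ' : FL.Hoco p.p ⟶ C.X) : Prop :=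
  ∀ (j : J) (k : SimplexCategory) (w : FL.WS j k),
    FL.coneS Λ' w = ofMx (X := p.p.obj j) (Y := C.X)
      ((Λ.app (op j)).app (op k) ((e.inv.app (op j)).app (op k) w))

end

end FLP
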