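import Pool.Agent.Helper58.FLP.B8
import Pool.Agent.Helper58.FL2.Final

/-!
# The small-valued form of the conjecture of Ayala and Francis
-/

open FL (SP)
open FLP

namespace Pool.Agent.Helper58.FLPF

/-- The restricted Yoneda functor from flagged `(∞,n)`-categories to presheaves on `Cat_n` is
fully faithful, its essential image consists of the presheaves with gaunt descent, and its values
are injectively fibrant. -/
theorem smallValued (n : ℕ) :
    Conjecture n ∧ ∀ D : SP (Gn n), Flagged D → (YD D).InjFib :=
  ⟨FLP.conjecture_of (Pool.Agent.Helper58.FL2F.conjecture_all n), fun _ hD =>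
    FLP.yd_injFib_of (Pool.Agent.Helper58.FLS.YD_injFib hD.inj)⟩

end Pool.Agent.Helper58.FLPF
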